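import Pool.Agent.H1.CarB

namespace Pool.Agent.Results.MP_eb20fa_an.Characterisation

open Filter Topology MeasureTheory

variable {H : Type} [NormedAddCommGroup H] [InnerProductSpace ℂ H] [CompleteSpace H]

/-- the analytic function `∑ ⟪e n, a⟫ z ^ n` on the unit disc represented by the vector `a`; this
identifies `H` with the Hardy space `H²`, with `e n` as `z ^ n` -/
noncomputable def fn (e : HilbertBasis ℕ ℂ H) (a : H) (z : ℂ) : ℂ := ∑' n, inner ℂ (e n) a * z ^ n

/-- `T^* T` is uniformly asymptotically Toeplitz with respect to `S`: the operators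
`S^{*n} T^* T S^n` converge in the operator norm (`star` is the Hilbert space adjoint) -/
def UAT (S T : H →L[ℂ] H) : Prop :=
  ∃ A : H →L[ℂ] H, Tendsto (fun n : ℕ => ‖star S ^ n * (star T * T) * S ^ n - A‖) atTop (𝓝 0)

/-- the radial boundary value of `φ` at `e^{it}` (the radial limit exists for almost every `t`) -/
noncomputable def bdry (φ : ℂ → ℂ) (t : ℝ) : ℂ :=
  limUnder (𝓝[<] 1) fun r : ℝ => φ (circleMap 0 r t)

/-- the kernel integral of the part of `m φ⁻¹` carried by the open disc (times `2π`) -/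
noncomputable def kernelInt (φ : ℂ → ℂ) (x : ℂ) : ℝ :=
  ∫ t in Set.Ioc 0 (2 * Real.pi), if ‖bdry φ t‖ < 1 then
    (1 - ‖x‖ ^ 2) / ‖1 - (starRingEnd ℂ) x * bdry φ t‖ ^ 2 else 0

/-- `T` is `C_φ` and `S` is `M_z`. -/
theorem result (e : HilbertBasis ℕ ℂ H) (φ : ℂ → ℂ) (hφ : DifferentiableOn ℂ φ (Metric.ball 0 1))
    (hm : Set.MapsTo φ (Metric.ball 0 1) (Metric.ball 0 1)) (T S : H →L[ℂ] H)
    (hT : ∀ a, ∀ z ∈ Metric.ball (0 : ℂ) 1, fn e (T a) z = fn e a (φ z))
    (hS : ∀ a, ∀ z ∈ Metric.ball (0 : ℂ) 1, fn e (S a) z = z * fn e a z) :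
    UAT S T ↔ Tendsto (kernelInt φ) (comap norm (𝓝[<] 1)) (𝓝 0) := by
  have f1 : ∀ a, fn e a = Pool.Agent.H1.Sat.FF (e.repr a) := fun a => by
    ext z; simp only [fn, Pool.Agent.H1.Sat.FF, e.repr_apply_apply]
  set Φ := e.repr.conjStarAlgEquiv
  refine Iff.trans ?_ (Pool.Agent.H1.Car.main (T := Φ T) (S := Φ S) hφ
    (fun z hz => by simpa using hm (by simpa using hz))
    (fun a z hz => by simpa [f1, Φ] using hT (e.repr.symm a) z (by simpa using hz))
    (fun a z hz => by simpa [f1, Φ] using hS (e.repr.symm a) z (by simpa using hz)) rfl)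
  rw [(EquivLike.surjective Φ).exists]
  refine exists_congr fun A => Iff.trans ?_ tendsto_iff_norm_sub_tendsto_zero.symm
  simp only [← map_star, ← map_pow, ← map_mul, ← map_sub, StarAlgEquiv.norm_map]

end Pool.Agent.Results.MP_eb20fa_an.Characterisation
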